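import Pool.Agent.H12.RS.Def

/-!
# H85.RS.Base: the base marks of the rule R* (module RS-A)

Monotonicity, the faces of the bases, and the counting conditions.
-/

set_option autoImplicit false

namespace Pool.Agent.H85.RS

open Finset Pool.Agent.H12.RS
open Pool.Agent.H85.TK (zs be Cb rel be_gt be_le be_mem be_succ_lt be_succ cb_const rel_le rel_mono
  zs_eq_sum zs_add zs_le zs_succ zs_bot zs_empty rel_sum_lt rel_sum_ge)

variable {c r : ℕ} {I : Finset ℕ} {w w' : ℕ → Bool}

theorem rel_lt {T : ℕ} (h : T < c) (h' : w T = false) : rel c w T = 1 := by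
  unfold rel
  rw [if_pos ⟨h, h'⟩]

theorem rel_one {T : ℕ} (h : w T = true) : rel c w T = 0 := by
  unfold rel
  rw [if_neg]
  rintro ⟨_, h1⟩
  rw [h] at h1
  exact absurd h1 (by simp)

theorem rel_ge {T : ℕ} (h : c ≤ T) : rel c w T = 0 := by
  unfold rel
  rw [if_neg (by omega)]

theorem mk_one {T : ℕ} (h : w (c + T) = true) (h' : Ph c r I w T (sr c r I w T)) :
    mk c r I w T = 1 := by
  unfold Pool.Agent.H12.RS.mk
  rw [if_pos ⟨h, h'⟩]

theorem mk_zero {T : ℕ} (h : ¬ (w (c + T) = true ∧ Ph c r I w T (sr c r I w T))) :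
    mk c r I w T = 0 := by
  unfold Pool.Agent.H12.RS.mk
  rw [if_neg h]

theorem mk_cases (c r : ℕ) (I : Finset ℕ) (w : ℕ → Bool) (T : ℕ) :
    (w (c + T) = true ∧ Ph c r I w T (sr c r I w T) ∧ mk c r I w T = 1) ∨
      (¬ (w (c + T) = true ∧ Ph c r I w T (sr c r I w T)) ∧ mk c r I w T = 0) := by
  by_cases h : w (c + T) = true ∧ Ph c r I w T (sr c r I w T)
  · exact Or.inl ⟨h.1, h.2, mk_one h.1 h.2⟩
  · exact Or.inr ⟨h, mk_zero h⟩

/-- (M) the state is antitone in the word -/
theorem sr_mono (T : ℕ) (h : ∀ i < c + T, w i = true → w' i = true) :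
    sr c r I w' T ≤ sr c r I w T := by
  induction T with
  | zero => exact le_rfl
  | succ T ih =>
    have h1 := ih fun i hi => h i (by omega)
    have h2 := rel_mono (c := c) (w := w) (w' := w') (T := T) fun hT => h T (by omega)
    have h5 := sr_succ c r I w T
    have h6 := sr_succ c r I w' T
    have h7 := h (c + T) (by omega)
    rcases mk_cases c r I w T with ⟨a1, a2, a3⟩ | ⟨a1, a2⟩
    · rcases mk_cases c r I w' T with ⟨b1, b2, b3⟩ | ⟨b1, b2⟩
      · omega
      · have h8 : ¬ Ph c r I w' T (sr c r I w' T) := fun hh => b1 ⟨h7 a1, hh⟩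
        by_cases hT : T < c
        · have e1 := rel_lt hT (a2.1 hT)
          cases hb : w' T with
          | true =>
            have e2 : rel c w' T = 0 := rel_one hb
            omega
          | false =>
            have e2 : rel c w' T = 1 := rel_lt hT hb
            have h9 : ¬ th c r I T ≤ sr c r I w' T + rel c w' T := fun hh => h8 ⟨fun _ => hb, hh⟩
            have h10 := a2.2
            omega
        · have e1 : rel c w T = 0 := rel_ge (by omega)
          have e2 : rel c w' T = 0 := rel_ge (by omega)
          have h9 : ¬ th c r I T ≤ sr c r I w' T + rel c w' T :=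
            fun hh => h8 ⟨fun hh' => absurd hh' hT, hh⟩
          have h10 := a2.2
          omega
    · omega

/-- (M) the condition of a mark is antitone in the word -/
theorem Ph_mono (T : ℕ) (h : ∀ i < c + T, w i = true → w' i = true)
    (h' : Ph c r I w' T (sr c r I w' T)) : Ph c r I w T (sr c r I w T) := by
  have h1 := sr_mono (r := r) (I := I) T h
  have h2 := rel_mono (c := c) (w := w) (w' := w') (T := T) fun hT => h T (by omega)
  refine ⟨fun hT => ?_, ?_⟩
  · by_contra h3
    have h4 : w T = true := by simpa using h3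
    have h5 := h T (by omega) h4
    rw [h'.1 hT] at h5
    exact absurd h5 (by simp)
  · have := h'.2
    omega

/-- the condition along a block -/
theorem Ph_step {T : ℕ} (h1 : T + 1 ∈ I) (h2 : T + 1 < r) (h3 : T + 1 < c → w (T + 1) = w T)
    (h : Ph c r I w T (sr c r I w T)) : Ph c r I w (T + 1) (sr c r I w (T + 1)) := by
  have hE := be_succ_lt h1 h2
  have hE1 := be_succ hE
  have h4 := sr_succ c r I w T
  have h5 := mk_le c r I w T
  obtain ⟨ha, hb⟩ := h
  unfold th at hb
  by_cases hT : T + 1 < c
  · have e0 := ha (by omega)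
    have e1 : w (T + 1) = false := by rw [h3 hT, e0]
    have e2 : rel c w T = 1 := rel_lt (by omega) e0
    have e3 : rel c w (T + 1) = 1 := rel_lt hT e1
    refine ⟨fun _ => e1, ?_⟩
    unfold th
    rw [if_pos hT, hE1, e3]
    rw [if_pos (by omega : T < c)] at hb
    omega
  · refine ⟨fun hh => absurd hh hT, ?_⟩
    unfold th
    rw [if_neg hT, hE1]
    by_cases hT2 : T < c
    · have e0 := ha hT2
      have e2 : rel c w T = 1 := rel_lt hT2 e0
      rw [if_pos hT2] at hb
      omega
    · rw [if_neg hT2] at hb
      have e2 : rel c w T = 0 := rel_ge (by omega)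
      omega

/-- the own type in the first lap -/
theorem X_own {T : ℕ} (h : T ∈ X c r I w) (hT : T < c) : w T = false := by
  unfold X at h
  exact (mem_filter.1 h).2.2.1 hT

/-- (U) -/
theorem X_up (hw : Cb c r I w) {g : ℕ} (hg : g ∈ I) (h0 : 0 < g) (hgr : g < r)
    (h : g - 1 ∈ X c r I w) (h1 : w (c + g) = true) : g ∈ X c r I w := by
  obtain ⟨T, rfl⟩ : ∃ T, g = T + 1 := ⟨g - 1, by omega⟩
  rw [Nat.add_sub_cancel] at h
  unfold X at h ⊢
  rw [mem_filter] at h ⊢
  refine ⟨mem_range.2 hgr, h1, Ph_step hg hgr (fun _ => ?_) h.2.2⟩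
  have := hw (T + 1) hg h0 (by omega)
  rwa [Nat.add_sub_cancel] at this

/-- (PAIR) -/
theorem X_pair {u v : ℕ → Bool} (hv : Cb c r I v) {g : ℕ} (hg : g ∈ I)
    (h0 : 0 < g) (hgr : g < r) (hle : ∀ i < c + g - 1, v i = true → u i = true)
    (h : g - 1 ∈ X c r I u) (h1 : v (c + g) = true) : g ∈ X c r I v := by
  obtain ⟨T, rfl⟩ : ∃ T, g = T + 1 := ⟨g - 1, by omega⟩
  rw [Nat.add_sub_cancel] at h
  unfold X at h ⊢
  rw [mem_filter] at h ⊢
  refine ⟨mem_range.2 hgr, h1, Ph_step hg hgr (fun _ => ?_)
    (Ph_mono T (fun i hi => hle i (by omega)) h.2.2)⟩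
  have := hv (T + 1) hg h0 (by omega)
  rwa [Nat.add_sub_cancel] at this

/-! ### counting -/

theorem sr_bal' {y : ℕ} (hy : y ≤ r) : sr c r I w y +
    ((X c r I w).filter fun T => 0 ≤ T ∧ T < y).card = ∑ i ∈ range y, rel c w i := by
  rw [Pool.Agent.H12.RS.card_X hy, ← range_eq_Ico]
  exact sr_bal c r I w y

/-- (b) -/
theorem X_b {b : ℕ} (hb : b ≤ c) (hbr : b ≤ r) : sr c r I w b +
    ((X c r I w).filter fun T => 0 ≤ T ∧ T < b).card = zs w 0 b := by
  rw [sr_bal' hbr, rel_sum_lt hb]

theorem X_c {y : ℕ} (hb : c ≤ y) (hy : y ≤ r) : sr c r I w y +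
    ((X c r I w).filter fun T => 0 ≤ T ∧ T < y).card = zs w 0 c := by
  rw [sr_bal' hy, rel_sum_ge hb]

theorem X_all : ((X c r I w).filter fun T => 0 ≤ T ∧ T < r) = X c r I w := by
  refine filter_true_of_mem fun f hf => ?_
  exact ⟨Nat.zero_le _, mem_range.1 (Pool.Agent.H12.RS.X_sub _ _ _ _ hf)⟩

/-- the total number of the marks and of the windows -/
theorem card_total (hcr : c ≤ r) : (X c r I w).card + A c r I w = zs w 0 c := by
  have h4 := X_c (c := c) (r := r) (I := I) (w := w) hcr le_rfl
  rw [X_all] at h4
  unfold A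
  omega

/-- (a) -/
theorem X_a (hw : Cb c r I w) {y : ℕ} (hy : y ≤ r) :
    zs w 0 c ≤ ((X c r I w).filter fun T => 0 ≤ T ∧ T < y).card + zs w y (y + c) := by
  rw [Pool.Agent.H12.RS.card_X hy]
  rcases Nat.eq_zero_or_pos c with hc | hc
  · subst hc
    rw [zs_empty w le_rfl]
    exact Nat.zero_le _
  induction y with
  | zero => simp
  | succ T ih =>
    have h1 := ih (by omega)
    have e1 : ∑ i ∈ Ico 0 (T + 1), mk c r I w i =
        ∑ i ∈ Ico 0 T, mk c r I w i + mk c r I w T :=
      sum_Ico_succ_top (Nat.zero_le T) _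
    have e2 := zs_bot w (a := T) (b := T + 1 + c) (by omega)
    have e3 := zs_succ w (a := T) (b := T + c) (by omega)
    have e4 : T + 1 + c = T + c + 1 := by omega
    rw [e4] at e2 ⊢
    rw [e1]
    by_cases hT : w T = false
    · by_cases hc1 : w (T + c) = false
      · rw [if_pos hT] at e2
        rw [if_pos hc1] at e3
        omega
      · rw [if_pos hT] at e2
        rw [if_neg hc1] at e3
        have hc2 : w (c + T) = true := by
          rw [add_comm]
          simpa using hc1
        by_cases hm : Ph c r I w T (sr c r I w T)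
        · have hm1 : mk c r I w T = 1 := mk_one hc2 hm
          omega
        · -- not marked: the inequality is strict
          suffices h2 : zs w 0 c < ∑ i ∈ Ico 0 T, mk c r I w i + zs w T (T + c) by omega
          by_contra h3
          apply hm
          have h4 := sr_bal c r I w T
          rw [range_eq_Ico] at h4
          have hE : be I r T ≤ T + c := by
            by_contra h5
            have h6 := cb_const hw (by omega : T ≤ T + c) (by omega : T + c < be I r T)
            exact hc1 (by rw [h6]; exact hT)
          have hE1 := be_gt I r T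
          -- the releases
          have h7 : ∑ i ∈ Ico 0 T, rel c w i + rel c w T + zs w (T + 1) c = zs w 0 c := by
            by_cases h8 : T + 1 ≤ c
            · have h9 := rel_sum_lt (w := w) (c := c) (b := T + 1) h8
              rw [sum_range_succ, range_eq_Ico] at h9
              rw [h9, zs_add (Nat.zero_le _) h8]
            · have h9 := rel_sum_ge (w := w) (c := c) (b := T + 1) (by omega)
              rw [sum_range_succ, range_eq_Ico] at h9
              rw [h9, zs_empty w (by omega : c ≤ T + 1), Nat.add_zero]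
          have h10 : th c r I T ≤ 1 + zs w (max (T + 1) c) (T + c) := by
            by_cases h12 : be I r T ≤ max (T + 1) c
            · unfold th
              split_ifs <;> omega
            · have h11 : be I r T - max (T + 1) c ≤ zs w (max (T + 1) c) (T + c) := by
                rw [← zs_add (by omega : max (T + 1) c ≤ be I r T) hE]
                refine le_trans ?_ (Nat.le_add_right _ _)
                unfold zs
                rw [filter_true_of_mem, Nat.card_Ico]
                intro i hi
                rw [mem_Ico] at hi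
                have h14 := cb_const hw (by omega : T ≤ i) (by omega : i < be I r T)
                rw [h14]
                exact hT
              unfold th
              split_ifs <;> omega
          have h15 : zs w (T + 1) c + zs w (max (T + 1) c) (T + c) = zs w (T + 1) (T + c) := by
            by_cases h16 : T + 1 ≤ c
            · rw [max_eq_right h16, zs_add h16 (by omega)]
            · rw [max_eq_left (by omega), zs_empty w (by omega : c ≤ T + 1), Nat.zero_add]
          have h17 := zs_bot w (a := T) (b := T + c) (by omega)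
          rw [if_pos hT] at h17
          refine ⟨fun _ => hT, ?_⟩
          omega
    · rw [if_neg hT] at e2
      have := Nat.zero_le (if w (T + c) = false then 1 else 0)
      omega

theorem sr_le_add {b : ℕ} : ∀ T, b ≤ T → sr c r I w T ≤ sr c r I w b + (min T c - b) := by
  intro T hT
  induction T, hT using Nat.le_induction with
  | base => omega
  | succ T hT ih =>
    have h1 := sr_succ c r I w T
    have h2 := rel_le c w T
    by_cases h3 : T < c
    · omega
    · have h4 : rel c w T = 0 := rel_ge (by omega)
      omega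

/-- the invariant for (E) -/
theorem sr_inv {b : ℕ} (hcr : c ≤ r) (hb : b ≤ c) : ∀ T, r - c + b ≤ T → T ≤ r →
    sr c r I w T + (c - T) ≤ sr c r I w b + zs w (r + b) (T + c) + (r - T) := by
  intro T hT
  induction T, hT using Nat.le_induction with
  | base =>
    intro _
    have h1 := sr_le_add (c := c) (r := r) (I := I) (w := w) (b := b) (r - c + b) (by omega)
    omega
  | succ T hT ih =>
    intro hTr
    have h1 := ih (by omega)
    have h2 := sr_succ c r I w T
    have e1 : T + 1 + c = T + c + 1 := by omega
    have h3 := zs_succ w (a := r + b) (b := T + c) (by omega)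
    rw [e1, h3]
    have hE := be_le (I := I) (by omega : T < r)
    have hE1 := be_gt I r T
    rcases mk_cases c r I w T with ⟨a1, a2, a3⟩ | ⟨a1, a2⟩
    · have h4 : w (T + c) = true := by rw [add_comm]; exact a1
      rw [if_neg (by rw [h4]; simp)]
      by_cases hc : T < c
      · have := rel_lt (w := w) hc (a2.1 hc)
        omega
      · have : rel c w T = 0 := rel_ge (by omega)
        omega
    · by_cases h4 : w (T + c) = false
      · rw [if_pos h4]
        by_cases hc : T < c
        · have := rel_le c w T
          omega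
        · have : rel c w T = 0 := rel_ge (by omega)
          omega
      · rw [if_neg h4]
        have h5 : w (c + T) = true := by
          rw [add_comm]
          simpa using h4
        have h6 : ¬ Ph c r I w T (sr c r I w T) := fun hh => a1 ⟨h5, hh⟩
        by_cases hc : T < c
        · cases hb : w T with
          | true =>
            have : rel c w T = 0 := rel_one hb
            omega
          | false =>
            have h7 : rel c w T = 1 := rel_lt hc hb
            have h8 : ¬ th c r I T ≤ sr c r I w T + rel c w T := fun hh => h6 ⟨fun _ => hb, hh⟩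
            unfold th at h8
            rw [if_pos hc] at h8
            omega
        · have h7 : rel c w T = 0 := rel_ge (by omega)
          have h8 : ¬ th c r I T ≤ sr c r I w T + rel c w T :=
            fun hh => h6 ⟨fun hh' => absurd hh' hc, hh⟩
          unfold th at h8
          rw [if_neg hc] at h8
          omega

/-- (E) in the form of the states -/
theorem sr_e (hcr : c ≤ r) {b : ℕ} (hb : b ≤ c) :
    sr c r I w r ≤ sr c r I w b + zs w (r + b) (r + c) := by
  have h1 := sr_inv (c := c) (r := r) (I := I) (w := w) hcr hb r (by omega) le_rfl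
  omega

/-- (E) -/
theorem X_e (hcr : c ≤ r) {b : ℕ} (hb : b ≤ c) :
    zs w b c ≤ ((X c r I w).filter fun T => b ≤ T ∧ T < r).card + zs w (r + b) (r + c) := by
  have h0 := sr_e (c := c) (r := r) (I := I) (w := w) hcr hb
  have h1 := X_b (c := c) (r := r) (I := I) (w := w) hb (by omega)
  have h2 := X_c (c := c) (r := r) (I := I) (w := w) hcr le_rfl
  rw [Pool.Agent.H12.RS.card_X (by omega)] at h1
  rw [Pool.Agent.H12.RS.card_X le_rfl] at h2
  rw [Pool.Agent.H12.RS.card_X le_rfl]
  have h3 : ∑ i ∈ Ico 0 b, mk c r I w i + ∑ i ∈ Ico b r, mk c r I w i =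
      ∑ i ∈ Ico 0 r, mk c r I w i := sum_Ico_consecutive _ (Nat.zero_le _) (by omega)
  have h7 : zs w 0 b + zs w b c = zs w 0 c := zs_add (Nat.zero_le _) hb w
  omega

/-- unmarked ones -/
def um (c r : ℕ) (I : Finset ℕ) (w : ℕ → Bool) (T : ℕ) : ℕ :=
  if w (c + T) = true ∧ ¬ Ph c r I w T (sr c r I w T) then 1 else 0

/-- (Q) -/
theorem sr_q (T : ℕ) (hT : T ≤ r) (hc : c ≤ T) : ∑ i ∈ Ico T r, um c r I w i = 0 ∨
    ∑ i ∈ Ico T r, um c r I w i + sr c r I w T ≤ r - T := by
  obtain ⟨n, hn⟩ : ∃ n, r = T + n := ⟨r - T, by omega⟩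
  induction n generalizing T with
  | zero =>
    left
    rw [hn, Nat.add_zero, Ico_self, sum_empty]
  | succ n ih =>
    have h1 := ih (T + 1) (by omega) (by omega) (by omega)
    have h2 : ∑ i ∈ Ico T r, um c r I w i = um c r I w T + ∑ i ∈ Ico (T + 1) r, um c r I w i :=
      sum_eq_sum_Ico_succ_bot (by omega) _
    have h3 := sr_succ c r I w T
    have h4 : rel c w T = 0 := rel_ge hc
    have hE := be_le (I := I) (by omega : T < r)
    have hE1 := be_gt I r T
    rw [h2]
    by_cases h5 : w (c + T) = true ∧ ¬ Ph c r I w T (sr c r I w T)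
    · have h6 : um c r I w T = 1 := by
        unfold um
        rw [if_pos h5]
      have h7 : mk c r I w T = 0 := mk_zero (fun hh => h5.2 hh.2)
      have h8 : ¬ th c r I T ≤ sr c r I w T + rel c w T :=
        fun hh => h5.2 ⟨fun hh' => absurd hh' (by omega), hh⟩
      unfold th at h8
      rw [if_neg (by omega)] at h8
      right
      omega
    · have h6 : um c r I w T = 0 := by
        unfold um
        rw [if_neg h5]
      have h7 := mk_le c r I w T
      omega

/-! ### constant words -/

theorem X_const_one (h : ∀ i < r + c, w i = true) : X c r I w = ∅ ∧ A c r I w = 0 := by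
  have h1 : ∀ T ≤ r, sr c r I w T = 0 := by
    intro T hT
    have h2 := sr_bal c r I w T
    have h3 : ∑ i ∈ range T, rel c w i = 0 := by
      refine sum_eq_zero fun i hi => ?_
      have := mem_range.1 hi
      exact rel_one (h i (by omega))
    omega
  refine ⟨?_, h1 r le_rfl⟩
  rw [eq_empty_iff_forall_notMem]
  intro T hT
  unfold X at hT
  rw [mem_filter, mem_range] at hT
  have h2 := th_pos c r I T
  have h4 : rel c w T = 0 := rel_one (h T (by omega))
  have h5 := h1 T hT.1.le
  have h6 := hT.2.2.2
  omega

theorem X_const_zero (hcr : c ≤ r) (h : ∀ i < r + c, w i = false) :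
    X c r I w = ∅ ∧ A c r I w = c := by
  have h0 : X c r I w = ∅ := by
    rw [eq_empty_iff_forall_notMem]
    intro T hT
    have h2 := mem_range.1 (Pool.Agent.H12.RS.X_sub _ _ _ _ hT)
    have h3 := Pool.Agent.H12.RS.X_one hT
    rw [h (c + T) (by omega)] at h3
    exact absurd h3 (by simp)
  refine ⟨h0, ?_⟩
  have h1 := card_total (c := c) (r := r) (I := I) (w := w) hcr
  rw [h0, card_empty, Nat.zero_add] at h1
  have h2 : zs w 0 c = c := by
    unfold zs
    rw [filter_true_of_mem, Nat.card_Ico, Nat.sub_zero]
    intro i hi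
    rw [mem_Ico] at hi
    exact h i (by omega)
  omega

end Pool.Agent.H85.RS
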