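import Pool.Agent.H53.ES.Wn
import Pool.Agent.H85.RS.Base

/-!
# H85.RS.Fa: the conditions of `pair_z` hold
-/

set_option autoImplicit false

namespace Pool.Agent.H85.RS

open Finset Pool.Agent.H12.RS Pool.Agent.H69L.TP
open Pool.Agent.H85.TK (zs Cb)

theorem fa {c r : ℕ} {I : Finset ℕ} {w : ℕ → Bool} (hcr : c ≤ r) (hw : Cb c r I w) :
    Pool.Agent.H53.ES.Fa c r I w :=
  Pool.Agent.H53.ES.fa hw hcr (fun _ hy => X_a hw hy) fun _ hb => X_e hcr hb

/-- the pair inequality, no hypothesis left -/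
theorem pair {c r : ℕ} (hcr : c ≤ r) (hr : 0 < r) {u v : ℕ → Bool} {I I' : Finset ℕ}
    (h : Cx (c + r) u v) (hu : Cst (c + r) I u) (hv : Cst (c + r) I' v) :
    PI c r u v (Pool.Agent.H53.ES.z c r u I) (Pool.Agent.H53.ES.z c r v I') :=
  Pool.Agent.H53.ES.pair_z hcr hr (fun _ _ hw => fa hcr hw) h hu hv

end Pool.Agent.H85.RS
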