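import Pool.Agent.H12.RS.Def

/-!
# H85.RS.Win: the windows of R* along and across the blocks
-/

set_option autoImplicit false

namespace Pool.Agent.H85.RS

open Finset Pool.Agent.H12.RS
open Pool.Agent.H85.TK (zs zs_add zs_le zs_succ zs_bot zs_empty)

variable {c r : ℕ} {I : Finset ℕ} {w : ℕ → Bool}

theorem ye_same {f : ℕ} (h : r + (f + 1) ∈ I) (hf : f + 1 < c) : ye r c I f = ye r c I (f + 1) := by
  have h1 := ye_gt r c I f
  have h2 := ye_spec r c I f
  have h3 : ye r c I f ≠ f + 1 := by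
    intro h4
    rw [h4] at h2
    rcases h2 with h2 | h2
    · omega
    · exact h2 h
  apply le_antisymm
  · exact Nat.find_min' (ye_ex r c I f) ⟨(Nat.lt_succ_self f).trans (ye_gt r c I (f + 1)),
      ye_spec r c I (f + 1)⟩
  · exact Nat.find_min' (ye_ex r c I (f + 1)) ⟨by omega, h2⟩

theorem ys_same {f : ℕ} (h : r + (f + 1) ∈ I) : ys r I (f + 1) = ys r I f := by
  unfold ys
  rw [Nat.findGreatest_succ, if_neg]
  rintro (h1 | h1)
  · omega
  · exact h1 h

/-- the faces of the windows -/
theorem W_up {g : ℕ} (hg : g ∈ I) (h0 : r < g) (hgr : g < r + c)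
    (h : g - r - 1 ∈ W c r I w) : g - r ∈ W c r I w := by
  obtain ⟨f, rfl⟩ : ∃ f, g = r + (f + 1) := ⟨g - r - 1, by omega⟩
  have e1 : r + (f + 1) - r - 1 = f := by omega
  have e2 : r + (f + 1) - r = f + 1 := by omega
  rw [e1] at h
  rw [e2]
  unfold W at h ⊢
  rw [mem_filter, mem_range] at h ⊢
  have h1 := ye_same (c := c) hg (by omega)
  have h2 := ys_same hg
  refine ⟨by omega, ?_⟩
  rw [← h1, h2]
  omega

/-- (Nw): across a nonempty gap the windows go down when the free lines have the same bit -/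
theorem W_dn {f : ℕ} (h0 : 0 < f) (hf : f < c) (hI : r + f ∉ I) (hw : w (f - 1) = w f)
    (h : f ∈ W c r I w) : f - 1 ∈ W c r I w := by
  unfold W at h ⊢
  rw [mem_filter, mem_range] at h ⊢
  have h1 := ye_gt r c I f
  have h2 := ye_le (r := r) (I := I) hf
  have h3 : ys r I f = f := by
    apply le_antisymm (ys_le r I f)
    exact Nat.le_findGreatest (P := fun y => y = 0 ∨ r + y ∉ I) le_rfl (Or.inr hI)
  have h4 : ye r c I (f - 1) = f := by
    apply le_antisymm
    · exact Nat.find_min' (ye_ex r c I (f - 1)) ⟨by omega, Or.inr hI⟩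
    · have := ye_gt r c I (f - 1)
      omega
  have h5 := ys_le r I (f - 1)
  rw [h3] at h
  rw [h4]
  refine ⟨by omega, ?_⟩
  have h6 := zs_add (w := w) (Nat.zero_le f) h1.le
  have h7 := zs_le w f (ye r c I f)
  have h8 := zs_bot w (a := f) (b := ye r c I f) h1
  have h9 := zs_le w (f + 1) (ye r c I f)
  have h10 := zs_add (w := w) (Nat.zero_le (ys r I (f - 1))) h5
  have h11 := zs_succ w (a := 0) (b := f - 1) (Nat.zero_le _)
  have e1 : f - 1 + 1 = f := by omega
  rw [e1] at h11
  have h12 := h.2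
  unfold P at h12 ⊢
  by_cases h13 : w f = false
  · rw [if_pos (by rw [hw, h13])] at h11
    omega
  · rw [if_neg h13] at h8
    omega

end Pool.Agent.H85.RS
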